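import Pool.Agent.H21.LNN.MI2b

/-!
# Row MI2 of the board `lnn_modules`: the main inequality on the sphere, little volume beyond the
first exit
-/

set_option autoImplicit false

open MeasureTheory Metric Set
open scoped ENNReal

namespace Pool.Agent.H21.LNN

open Pool.Agent.H85.LK (E adm lam Ann)
open Pool.Agent.H69.LQ Pool.Agent.H69.LNN

variable {N : ℕ}

theorem av_ind_sub {F G : Sp N → ℝ} (hF : BM F) (hG : BM G) {s : Set (Sp N)}
    (hs : MeasurableSet s) :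
    av (s.indicator fun θ => F θ - G θ) = av (s.indicator F) - av (s.indicator G) := by
  rw [← av_sub (BM_ind hF hs) (BM_ind hG hs)]
  congr 1
  funext θ
  by_cases h : θ ∈ s
  · rw [indicator_of_mem h, indicator_of_mem h, indicator_of_mem h]
  · rw [indicator_of_notMem h, indicator_of_notMem h, indicator_of_notMem h, sub_zero]

theorem av_ind_add' {F G : Sp N → ℝ} (hF : BM F) (hG : BM G) {s : Set (Sp N)}
    (hs : MeasurableSet s) :
    av (s.indicator fun θ => F θ + G θ) = av (s.indicator F) + av (s.indicator G) := by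
  rw [← av_add (BM_ind hF hs) (BM_ind hG hs)]
  congr 1
  funext θ
  by_cases h : θ ∈ s
  · rw [indicator_of_mem h, indicator_of_mem h, indicator_of_mem h]
  · rw [indicator_of_notMem h, indicator_of_notMem h, indicator_of_notMem h, add_zero]

theorem av_ind_const_mul (c : ℝ) (F : Sp N → ℝ) (s : Set (Sp N)) :
    av (s.indicator fun θ => c * F θ) = c * av (s.indicator F) := by
  rw [← av_const_mul]
  congr 1
  funext θ
  by_cases h : θ ∈ s
  · rw [indicator_of_mem h, indicator_of_mem h]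
  · rw [indicator_of_notMem h, indicator_of_notMem h, mul_zero]

/-- the potential on the rays of large volume -/
theorem large_part {C₀ K : ℝ} {ρ : Sp N → ℝ} (hC : 1 ≤ C₀) (hK : 1224 * Real.exp C₀ ≤ K)
    (hρ : BM ρ) :
    1 / 2 * av ((Gk K ρ)ᶜ.indicator ρ) ≤ av ((Gk K ρ)ᶜ.indicator fun θ => ρ θ - 1) -
      av ((Gk K ρ)ᶜ.indicator fun θ =>
        (Real.log (ρ θ) + C₀) + 100 * (Real.log (ρ θ) + C₀) ^ 2) := by
  have mG := meas_Gk (K := K) hρ
  obtain ⟨l, hl⟩ : ∃ l : Sp N → ℝ, l = fun θ => Real.log (max (ρ θ) 1) + C₀ := ⟨_, rfl⟩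
  have bl : BM l := by
    rw [hl]
    exact (hρ.comp (g := fun t => Real.log (max t 1))
      (Continuous.log (continuous_id.max continuous_const) fun t =>
        (lt_of_lt_of_le one_pos (le_max_right t 1)).ne')).add (BM_const C₀)
  have heK : 1 ≤ Real.exp K := by
    have := Real.exp_pos C₀
    exact Real.one_le_exp (by linarith)
  have h1 : ((Gk K ρ)ᶜ.indicator fun θ =>
      (Real.log (ρ θ) + C₀) + 100 * (Real.log (ρ θ) + C₀) ^ 2) =
      (Gk K ρ)ᶜ.indicator fun θ => l θ + 100 * l θ ^ 2 := by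
    refine Set.indicator_congr fun θ hθ => ?_
    have h2 : Real.exp K < ρ θ := not_mem_Gk.1 hθ
    rw [hl]
    show _ = (Real.log (max (ρ θ) 1) + C₀) + 100 * (Real.log (max (ρ θ) 1) + C₀) ^ 2
    rw [max_eq_left (by linarith)]
  rw [h1, ← av_ind_const_mul, ← av_ind_sub (hρ.sub (BM_const 1))
    (bl.add ((bl.pow 2).const_mul 100)) mG.compl]
  refine av_ind_mono (hρ.const_mul _) ((hρ.sub (BM_const 1)).sub
    (bl.add ((bl.pow 2).const_mul 100))) mG.compl fun θ hθ => ?_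
  have h2 : Real.exp K < ρ θ := not_mem_Gk.1 hθ
  have h3 := log_large hC hK h2
  rw [hl]
  show 1 / 2 * ρ θ ≤ ρ θ - 1 - ((Real.log (max (ρ θ) 1) + C₀) +
    100 * (Real.log (max (ρ θ) 1) + C₀) ^ 2)
  rw [max_eq_left (by linarith)]
  linarith

/-- the rays of small volume -/
theorem small_part {K : ℝ} {ρ R : Sp N → ℝ} (hρ : BM ρ) (hR' : BM R)
    (hlb : ∃ δ : ℝ, 0 < δ ∧ ∀ θ, δ ≤ R θ) :
    1 / 20 * av ((Gk K ρ).indicator fun θ => min (hR R θ ^ 2) 1) +
      (1 / 4 + 1 / 50) * av ((Gk K ρ).indicator fun θ => phi (hR R θ) ^ 2) +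
      1 / 500 * av ((Gk K ρ).indicator fun θ => ht (hR R θ) ^ 2) ≤
    av ((Gk K ρ).indicator fun θ => R θ ^ N - 1 - psi (hR R θ)) := by
  have mG := meas_Gk (K := K) hρ
  have bh : BM (hR R) := BM_hR hR' hlb
  have b1 : BM fun θ => min (hR R θ ^ 2) 1 := BM_min (bh.pow 2) (BM_const 1)
  have b2 := (BM_phi bh).pow 2
  have b3 := (BM_ht bh).pow 2
  rw [← av_ind_const_mul, ← av_ind_const_mul, ← av_ind_const_mul,
    ← av_ind_add' (b1.const_mul _) (b2.const_mul _) mG,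
    ← av_ind_add' ((b1.const_mul _).add (b2.const_mul _)) (b3.const_mul _) mG]
  refine av_ind_mono (((b1.const_mul _).add (b2.const_mul _)).add (b3.const_mul _))
    (((hR'.pow N).sub (BM_const 1)).sub (BM_psi bh)) mG fun θ _ => ?_
  obtain ⟨δ', h1, h2⟩ := hlb
  rw [← exp_hR (lt_of_lt_of_le h1 (h2 θ))]
  exact m_ge _

/-- MI2 -/
theorem pf_MI2 (_hMP : T_MP) (hMO : T_MO) (_hPY : T_PY) (_hQU : T_QU) (hL4 : T_L4)
    (hVI : T_VI) : T_MI2 := by
  intro C₀ hC₀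
  have hE1 : 1 ≤ Real.exp C₀ := Real.one_le_exp (by linarith)
  refine ⟨1224 * Real.exp C₀, by linarith, ?_⟩
  intro K hK
  have hK1 : 1 ≤ K := by linarith
  have heK : 1 ≤ Real.exp K := Real.one_le_exp (by linarith)
  obtain ⟨cK, hcK⟩ : ∃ cK : ℝ, cK = K + 2 + 10 * Real.exp K := ⟨_, rfl⟩
  have hcK0 : 0 ≤ cK := by rw [hcK]; linarith
  obtain ⟨A, hA⟩ : ∃ A : ℝ, A = cK + cK ^ 2 + (2 + 4 * Real.exp K) + 110 := ⟨_, rfl⟩
  have hA1 : 110 ≤ A := by rw [hA]; nlinarith [sq_nonneg cK]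
  have hA0 : 0 < A := by linarith
  obtain ⟨δ, hδ⟩ : ∃ δ : ℝ, δ = 1 / (10 ^ 6 * A) := ⟨_, rfl⟩
  have hδA : δ * A = 1 / 10 ^ 6 := by rw [hδ]; field_simp
  have hδ0 : 0 < δ := by rw [hδ]; positivity
  have hδ1 : δ ≤ 1 := by
    rw [hδ, div_le_one (by positivity)]
    linarith
  obtain ⟨κ, hκ⟩ : ∃ κ : ℝ, κ = δ ^ 2 / (601 * A) := ⟨_, rfl⟩
  have hκ0 : 0 < κ := by rw [hκ]; positivity
  have hκA : A * (601 * κ) = δ ^ 2 := by rw [hκ]; field_simp
  have hκ1 : κ ≤ 1 := by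
    rw [hκ, div_le_one (by positivity)]
    nlinarith
  obtain ⟨N₀, hN₀⟩ := exists_nat_ge (100 * K)
  refine ⟨κ, κ, max 3 N₀, hκ0, hκ0, le_max_left _ _, ?_⟩
  intro N κ' far k₀ ρ R d H Hb k kf hN hM hz
  have hN3 : 3 ≤ N := (le_max_left _ _).trans hN
  have hNN : N₀ ≤ N := (le_max_right _ _).trans hN
  have hNK : 100 * K ≤ (N : ℝ) := hN₀.trans (by exact_mod_cast hNN)
  have hN0 : (0 : ℝ) < N := by linarith
  have hKN : K / N ≤ 1 / 100 := by
    rw [div_le_iff₀ hN0]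
    linarith
  have h1 := n1_F hMO hL4 hK1 hcK hA hδ0 hδA hκA hκ1 hN3 hKN hM hz
  have h2 := hVI N K ρ R d H (by omega) hM.bρ hM.bR hM.bd hM.bH hM.Rlb hM.rel
  have h3 := large_part (K := K) hC₀ hK hM.bρ
  have h4 := small_part (K := K) hM.bρ hM.bR hM.Rlb
  have mG := meas_Gk (K := K) hM.bρ
  have h5 : av ((Gk K ρ).indicator H) ≤ av ((Gk K ρ).indicator Hb) :=
    av_ind_mono hM.bH hM.bHb mG fun θ _ => (hM.H0 θ).2
  have h6 : 0 ≤ av ((Gk K ρ).indicator Hb) :=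
    av_ind_nonneg fun θ _ => (hM.H0 θ).1.trans (hM.H0 θ).2
  have h7 : 0 ≤ av ((Gk K ρ).indicator d) := av_ind_nonneg fun θ _ => (hM.d0 θ).1
  have h8 : 0 ≤ av ((Gk K ρ)ᶜ.indicator ρ) :=
    av_ind_nonneg fun θ _ => (hM.d0 θ).1.trans (hM.d0 θ).2
  have h9 : 0 ≤ av ((Gk K ρ).indicator fun θ => min (hR R θ ^ 2) 1) :=
    av_ind_nonneg fun θ _ => le_min (sq_nonneg _) zero_le_one
  have h10 := hM.vol
  have h11 := hM.far0
  unfold MM Dst
  rw [h2]
  linarith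

end Pool.Agent.H21.LNN
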