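import Pool.Agent.H69.LNN.Lib

/-!
# Row MI2 of the board `lnn_modules`, part 1: real inequalities
-/

set_option autoImplicit false

open MeasureTheory Metric Set
open scoped ENNReal

namespace Pool.Agent.H21.LNN

open Pool.Agent.H85.LK (E adm lam Ann)
open Pool.Agent.H69.LQ Pool.Agent.H69.LNN

/-- the function `m` -/
theorem m_ge (h : ℝ) : 1 / 20 * min (h ^ 2) 1 + (1 / 4 + 1 / 50) * phi h ^ 2 +
    1 / 500 * ht h ^ 2 ≤ Real.exp h - 1 - psi h := by
  have hm1 : min (h ^ 2) 1 ≤ h ^ 2 := min_le_left _ _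
  have hm2 : min (h ^ 2) 1 ≤ 1 := min_le_right _ _
  rcases le_or_gt (-(3 / 2)) h with h1 | h1
  · rw [phi_of_le h1, ht_of_le h1, psi_of_le h1]
    rcases le_total 0 h with h2 | h2
    · have h3 := Real.quadratic_le_exp_of_nonneg h2
      nlinarith [sq_nonneg h]
    · rcases le_total (-1) h with h4 | h4
      · have h5 := Real.exp_bound (x := h) (by rw [abs_le]; exact ⟨h4, by linarith⟩)
          (n := 5) (by norm_num)
        have h6 := (abs_le.1 h5).1
        simp only [Finset.sum_range_succ, Finset.sum_range_zero, Nat.factorial] at h6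
        rw [abs_of_nonpos h2] at h6
        norm_num at h6
        obtain ⟨y, hy⟩ : ∃ y : ℝ, y = -h := ⟨_, rfl⟩
        have hy0 : 0 ≤ y := by linarith
        have hy1 : y ≤ 1 := by linarith
        have hh : h = -y := by linarith
        rw [hh] at h6 ⊢ hm1
        have e1 : Real.exp (-y) ≥ 1 - y + y ^ 2 / 2 - y ^ 3 / 6 + y ^ 4 / 24 - y ^ 5 / 100 := by
          ring_nf at h6 ⊢
          linarith
        have e2 : 0 ≤ y ^ 2 * (178 / 1000 - y / 6 + y ^ 2 / 24 - y ^ 3 / 100) := by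
          refine mul_nonneg (sq_nonneg y) ?_
          have e3 : y ^ 3 ≤ y ^ 2 := by nlinarith [sq_nonneg y]
          nlinarith [sq_nonneg y]
        nlinarith
      · obtain ⟨u, hu⟩ : ∃ u : ℝ, u = -h - 1 := ⟨_, rfl⟩
        have hu0 : 0 ≤ u := by linarith
        have hu1 : u ≤ 1 / 2 := by linarith
        have hh : h = -1 + -u := by linarith
        have e1 : 1 - u ≤ Real.exp (-u) := by
          have := Real.add_one_le_exp (-u)
          linarith
        have e2 := Real.exp_neg_one_gt_d9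
        have e3 : 3678 / 10000 * (1 - u) ≤ Real.exp h := by
          rw [hh, Real.exp_add]
          refine mul_le_mul ?_ e1 (by linarith) (Real.exp_pos _).le
          linarith
        rw [hh] at e3 ⊢ hm2
        nlinarith
  · rw [phi_of_lt h1, ht_of_lt h1, psi_of_lt h1]
    have := Real.exp_pos h
    linarith

/-- large values -/
theorem log_large {C₀ K r : ℝ} (hC : 1 ≤ C₀) (hK : 1224 * Real.exp C₀ ≤ K)
    (hr : Real.exp K < r) :
    1 / 2 * r + ((Real.log r + C₀) + 100 * (Real.log r + C₀) ^ 2) ≤ r - 1 := by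
  have hr0 : 0 < r := (Real.exp_pos K).trans hr
  have h1 : K ≤ Real.log r := by
    rw [Real.le_log_iff_exp_le hr0]
    exact hr.le
  obtain ⟨t, ht⟩ : ∃ t : ℝ, t = Real.log r + C₀ := ⟨_, rfl⟩
  have h2 : 1224 * Real.exp C₀ ≤ t := by linarith
  have h3 : 1 ≤ Real.exp C₀ := Real.one_le_exp (by linarith)
  have ht1 : 1 ≤ t := by linarith
  have h4 : r * Real.exp C₀ = Real.exp t := by
    rw [ht, Real.exp_add, Real.exp_log hr0]
  have h5 : t ^ 3 / 6 ≤ Real.exp t := by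
    have := Real.pow_div_factorial_le_exp t (by linarith) 3
    norm_num [Nat.factorial] at this
    exact this
  have h6 : 204 * t ^ 2 * Real.exp C₀ ≤ r * Real.exp C₀ := by
    rw [h4]
    refine le_trans ?_ h5
    have h7 : 204 * t ^ 2 * Real.exp C₀ = t ^ 2 * (1224 * Real.exp C₀) / 6 := by ring
    rw [h7]
    have h8 : t ^ 2 * (1224 * Real.exp C₀) ≤ t ^ 2 * t :=
      mul_le_mul_of_nonneg_left h2 (sq_nonneg t)
    have h9 : t ^ 2 * t = t ^ 3 := by ring
    linarith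
  have h10 : 204 * t ^ 2 ≤ r := le_of_mul_le_mul_right h6 (Real.exp_pos _)
  rw [← ht]
  nlinarith

theorem rp43 {t : ℝ} (ht : 0 ≤ t) : t ^ (4 / 3 : ℝ) ≤ t + t ^ 2 := by
  rcases eq_or_lt_of_le ht with h | h
  · rw [← h, Real.zero_rpow (by norm_num)]
    norm_num
  rcases le_total t 1 with h1 | h1
  · have h2 := Real.rpow_le_rpow_of_exponent_ge h h1 (by norm_num : (1 : ℝ) ≤ 4 / 3)
    rw [Real.rpow_one] at h2
    nlinarith
  · have h2 := Real.rpow_le_rpow_of_exponent_le h1 (by norm_num : (4 / 3 : ℝ) ≤ 2)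
    rw [Real.rpow_two] at h2
    linarith

theorem rp32 {x δ : ℝ} (hx : 0 ≤ x) (hδ : 0 ≤ δ) (h : x ≤ δ ^ 2) : x ^ (3 / 2 : ℝ) ≤ δ * x := by
  have h1 : (3 / 2 : ℝ) = 1 / 2 + 1 := by norm_num
  rw [h1, Real.rpow_add_of_nonneg hx (by norm_num) (by norm_num), Real.rpow_one,
    ← Real.sqrt_eq_rpow]
  refine mul_le_mul_of_nonneg_right ?_ hx
  rw [Real.sqrt_le_left hδ]
  exact h

theorem n_exp (N : ℕ) : (N : ℝ) * Real.exp (-Real.sqrt N) ^ 2 ≤ 1 / 4 := by
  obtain ⟨s, hs⟩ : ∃ s : ℝ, s = Real.sqrt N := ⟨_, rfl⟩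
  have hs0 : 0 ≤ s := by rw [hs]; exact Real.sqrt_nonneg _
  have hN : (N : ℝ) = s ^ 2 := by
    rw [hs, Real.sq_sqrt (Nat.cast_nonneg N)]
  rw [← hs, hN]
  have h1 := Real.add_one_le_exp (s - 1)
  have h2 : s * Real.exp (-s) ≤ 1 / 2 := by
    have h3 : s * Real.exp (-s) ≤ Real.exp (s - 1) * Real.exp (-s) :=
      mul_le_mul_of_nonneg_right (by linarith) (Real.exp_pos _).le
    rw [← Real.exp_add] at h3
    have h4 : s - 1 + -s = -1 := by ring
    rw [h4] at h3
    have h5 := Real.exp_neg_one_lt_d9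
    linarith
  have h6 : 0 ≤ s * Real.exp (-s) := mul_nonneg hs0 (Real.exp_pos _).le
  calc s ^ 2 * Real.exp (-s) ^ 2 = (s * Real.exp (-s)) ^ 2 := by ring
    _ ≤ (1 / 2) ^ 2 := pow_le_pow_left₀ h6 h2 2
    _ = 1 / 4 := by norm_num

/-- the bound for the main part -/
theorem b_sq {h κN s : ℝ} (hh : |h| ≤ 1 / 100) (hκ : 0 ≤ κN) (hκ1 : κN ≤ 1 / 100) (hs : 0 ≤ s) :
    (4 * h ^ 2 + κN * |h| + 2 * Real.sqrt s) ^ 2 ≤ 75 / 10000 * h ^ 2 + 6 * s := by
  have h0 := abs_nonneg h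
  have h1 : 4 * h ^ 2 + κN * |h| ≤ 1 / 20 * |h| := by
    rw [← sq_abs h]
    nlinarith
  have h2 : 0 ≤ 4 * h ^ 2 + κN * |h| := by positivity
  have h3 : (4 * h ^ 2 + κN * |h|) ^ 2 ≤ (1 / 20 * |h|) ^ 2 := pow_le_pow_left₀ h2 h1 2
  have h4 : (1 / 20 * |h|) ^ 2 = 1 / 400 * h ^ 2 := by rw [mul_pow, sq_abs]; norm_num
  have h5 := Real.sq_sqrt hs
  nlinarith [sq_nonneg (2 * (4 * h ^ 2 + κN * |h|) - 2 * Real.sqrt s)]

/-- clipping -/
theorem clip_abs {f b : ℝ} (hb : 0 ≤ b) : |max (-b) (min f b)| ≤ b := by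
  rw [abs_le]
  exact ⟨le_max_left _ _, max_le (by linarith) (min_le_right _ _)⟩

theorem clip_sub {f b c : ℝ} (hb : 0 ≤ b) (hf : |f| ≤ b + c) (hc : 0 ≤ c) :
    |f - max (-b) (min f b)| ≤ c := by
  have h1 := abs_le.1 hf
  rcases le_total f b with h2 | h2
  · rw [min_eq_left h2]
    rcases le_total (-b) f with h3 | h3
    · rw [max_eq_right h3, sub_self, abs_zero]
      exact hc
    · rw [max_eq_left h3, abs_le]
      constructor <;> linarith
  · rw [min_eq_right h2, max_eq_right (by linarith), abs_le]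
    constructor <;> linarith

/-- the exponent on the rays of small volume -/
theorem far_one {h ρ d H : ℝ} (hd : 0 ≤ d) (hH : 0 ≤ H) (he : Real.exp h + d = ρ + H)
    (hh : 1 / 100 < |h|) : 1 ≤ 200 * (d + |ρ - 1| + H) := by
  have h1 := le_abs_self (ρ - 1)
  have h2 := neg_abs_le (ρ - 1)
  rcases le_total 0 h with h3 | h3
  · rw [abs_of_nonneg h3] at hh
    have := Real.add_one_le_exp h
    linarith
  · rw [abs_of_nonpos h3] at hh
    have h4 : Real.exp h ≤ Real.exp (-(1 / 100)) := Real.exp_le_exp.2 (by linarith)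
    have h5 : Real.exp (-(1 / 100 : ℝ)) ≤ 1 - 1 / 200 := by
      have h6 := Real.add_one_le_exp (1 / 100 : ℝ)
      rw [Real.exp_neg]
      rw [inv_le_comm₀ (Real.exp_pos _) (by norm_num)]
      refine le_trans ?_ h6
      norm_num
    linarith

theorem exp_bound_G {h K ρ d H : ℝ} (hK : 1 ≤ K) (hd : 0 ≤ d) (hH : H ≤ 1)
    (he : Real.exp h + d = ρ + H) (hρ : ρ ≤ Real.exp K) : |phi h| ≤ K + 2 := by
  have h1 : h ≤ K + 1 := by
    rw [← Real.exp_le_exp]
    have h2 : 1 ≤ Real.exp K := Real.one_le_exp (by linarith)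
    have h3 : 2 ≤ Real.exp 1 := by
      have := Real.add_one_le_exp (1 : ℝ)
      linarith
    rw [Real.exp_add]
    nlinarith
  rcases le_or_gt (-(3 / 2)) h with h2 | h2
  · rw [phi_of_le h2, abs_le]
    constructor <;> linarith
  · rw [phi_of_lt h2, abs_neg, abs_one]
    linarith

end Pool.Agent.H21.LNN
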