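import Pool.Agent.H21.LNN.MI2a

/-!
# Row MI2 of the board `lnn_modules`, part 2: the part of degree `1`
-/

set_option autoImplicit false

open MeasureTheory Metric Set
open scoped ENNReal

namespace Pool.Agent.H21.LNN

open Pool.Agent.H85.LK (E adm lam Ann)
open Pool.Agent.H69.LQ Pool.Agent.H69.LNN

variable {N : ℕ}

theorem c1_add' {F G : Sp N → ℝ} (hF : BM F) (hG : BM G) (j : Fin N) :
    c1 (fun θ => F θ + G θ) j = c1 F j + c1 G j := by
  unfold c1
  have h1 : (fun θ : Sp N => (F θ + G θ) * (θ : E N) j) =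
      fun θ => F θ * (θ : E N) j + G θ * (θ : E N) j := by
    funext θ
    ring
  rw [h1, av_add (hF.mul (BM_coord j)) (hG.mul (BM_coord j))]
  ring

theorem n1_add' {F G : Sp N → ℝ} (hF : BM F) (hG : BM G) :
    n1 (fun θ => F θ + G θ) ≤ 2 * n1 F + 2 * n1 G := by
  unfold n1
  have h1 : ∑ j, c1 (fun θ => F θ + G θ) j ^ 2 ≤ 2 * ∑ j, c1 F j ^ 2 + 2 * ∑ j, c1 G j ^ 2 := by
    rw [Finset.mul_sum, Finset.mul_sum, ← Finset.sum_add_distrib]
    refine Finset.sum_le_sum fun j _ => ?_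
    rw [c1_add' hF hG]
    nlinarith [sq_nonneg (c1 F j - c1 G j)]
  have hN : (0 : ℝ) ≤ N := Nat.cast_nonneg N
  calc (∑ j, c1 (fun θ => F θ + G θ) j ^ 2) / (N : ℝ)
      ≤ (2 * ∑ j, c1 F j ^ 2 + 2 * ∑ j, c1 G j ^ 2) / N := div_le_div_of_nonneg_right h1 hN
    _ = _ := by ring

theorem n1_center (hMO : T_MO) (hN : 2 ≤ N) {F k : Sp N → ℝ} (k₀ : ℝ) (hF : BM F) (hk : BM k)
    (hc : ∀ j, av (fun θ => k θ * (θ : E N) j) = 0) :
    n1 (fun θ => F θ + (k θ - k₀)) = n1 F := by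
  obtain ⟨-, m2, -⟩ := hMO N hN
  unfold n1
  have h1 : ∀ j, c1 (fun θ => F θ + (k θ - k₀)) j = c1 F j := by
    intro j
    rw [c1_add' hF (hk.sub (BM_const k₀))]
    have h2 : c1 (fun θ => k θ - k₀) j = 0 := by
      unfold c1
      have h3 : (fun θ : Sp N => (k θ - k₀) * (θ : E N) j) =
          fun θ => k θ * (θ : E N) j - k₀ * (θ : E N) j := by
        funext θ
        ring
      rw [h3, av_sub (hk.mul (BM_coord j)) ((BM_coord j).const_mul _), av_const_mul, hc, m2]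
      ring
    rw [h2, add_zero]
  rw [Finset.sum_congr rfl fun j _ => by rw [h1 j]]

theorem n1_F (hMO : T_MO) (hL4 : T_L4) {K κ κ' far k₀ A δ cK : ℝ} {ρ R d H Hb k kf : Sp N → ℝ}
    (hK1 : 1 ≤ K) (hcK : cK = K + 2 + 10 * Real.exp K)
    (hA : A = cK + cK ^ 2 + (2 + 4 * Real.exp K) + 110) (hδ0 : 0 < δ) (hδA : δ * A = 1 / 10 ^ 6)
    (hκA : A * (601 * κ) = δ ^ 2) (hκ1 : κ ≤ 1) (hN3 : 3 ≤ N) (hKN : K / N ≤ 1 / 100)
    (hM : MD K κ κ' far k₀ ρ R d H Hb k kf)
    (hz : av ((Gk K ρ).indicator d) + av ((Gk K ρ)ᶜ.indicator ρ) ≤ κ) :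
    n1 ((Gk K ρ).indicator fun θ => phi (hR R θ)) ≤
      95 / 1000 * av ((Gk K ρ).indicator fun θ => min (hR R θ ^ 2) 1) +
      12 * av ((Gk K ρ).indicator Hb) +
      1 / 100 * (av ((Gk K ρ).indicator d) + av ((Gk K ρ)ᶜ.indicator ρ)) + far := by
  have heK : 1 ≤ Real.exp K := Real.one_le_exp (by linarith)
  have hcK0 : 0 ≤ cK := by rw [hcK]; linarith
  have hA1 : 110 ≤ A := by rw [hA]; nlinarith [sq_nonneg cK]
  have hN0 : (0 : ℝ) < N := by
    have : 0 < N := by omega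
    exact_mod_cast this
  have hKN0 : 0 ≤ K / N := by positivity
  obtain ⟨h, hh⟩ : ∃ h : Sp N → ℝ, h = hR R := ⟨_, rfl⟩
  have bh : BM h := by rw [hh]; exact BM_hR hM.bR hM.Rlb
  obtain ⟨G, hG⟩ : ∃ G : Set (Sp N), G = Gk K ρ := ⟨_, rfl⟩
  have mG : MeasurableSet G := by rw [hG]; exact meas_Gk hM.bρ
  have hexp : ∀ θ, Real.exp (h θ) + d θ = ρ θ + H θ := by
    intro θ
    obtain ⟨δ', h1, h2⟩ := hM.Rlb
    rw [hh, exp_hR (lt_of_lt_of_le h1 (h2 θ))]
    exact hM.rel θ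
  have hka : ∀ θ, |h θ| ≤ 1 / 4 → |k θ - k₀ - kf θ - h θ| ≤
      4 * h θ ^ 2 + K / N * |h θ| + 2 * d θ + 2 * Real.sqrt (Hb θ) := by
    rw [hh]; exact hM.ka
  rw [← hG] at hz
  rw [← hh, ← hG]
  have hGm : ∀ θ, θ ∈ G ↔ ρ θ ≤ Real.exp K := by
    intro θ
    rw [hG]
    exact mem_Gk
  have hHb0 : ∀ θ, 0 ≤ Hb θ := fun θ => (hM.H0 θ).1.trans (hM.H0 θ).2
  obtain ⟨x, hx⟩ : ∃ x : Sp N → ℝ, x = fun θ => k θ - k₀ - kf θ := ⟨_, rfl⟩
  have bx : BM x := by rw [hx]; exact (hM.bk.sub (BM_const k₀)).sub hM.bkf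
  have bφ : BM (G.indicator fun θ => phi (h θ)) := BM_ind (BM_phi bh) mG
  obtain ⟨f, hf⟩ : ∃ f : Sp N → ℝ, f = fun θ => G.indicator (fun θ => phi (h θ)) θ - x θ :=
    ⟨_, rfl⟩
  have bf : BM f := by rw [hf]; exact bφ.sub bx
  obtain ⟨b, hb⟩ : ∃ b : Sp N → ℝ, b = fun θ =>
      4 * h θ ^ 2 + K / N * |h θ| + 2 * Real.sqrt (Hb θ) := ⟨_, rfl⟩
  have bb' : BM b := by
    rw [hb]
    exact (((bh.pow 2).const_mul 4).add ((bh.abs).const_mul _)).add
      ((hM.bHb.comp Real.continuous_sqrt).const_mul 2)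
  have hb0 : ∀ θ, 0 ≤ b θ := fun θ => by
    rw [hb]
    have := Real.sqrt_nonneg (Hb θ)
    have := abs_nonneg (h θ)
    positivity
  obtain ⟨S, hS⟩ : ∃ S : Set (Sp N), S = G ∩ {θ | |h θ| ≤ 1 / 100} := ⟨_, rfl⟩
  have mSS : MeasurableSet S := by
    rw [hS]
    exact mG.inter (measurableSet_le bh.abs.1 measurable_const)
  obtain ⟨ea, hea⟩ : ∃ ea : Sp N → ℝ, ea = S.indicator (fun θ => max (-b θ) (min (f θ) (b θ))) :=
    ⟨_, rfl⟩
  have bea : BM ea := by rw [hea]; exact BM_ind (BM_max bb'.neg (BM_min bf bb')) mSS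
  obtain ⟨Er, hEr⟩ : ∃ Er : Sp N → ℝ, Er = fun θ => f θ - ea θ := ⟨_, rfl⟩
  have bEr : BM Er := by rw [hEr]; exact bf.sub bea
  obtain ⟨Y, hY⟩ : ∃ Y : ℝ, Y = av (G.indicator fun θ => min (h θ ^ 2) 1) := ⟨_, rfl⟩
  obtain ⟨D, hD⟩ : ∃ D : ℝ, D = av (G.indicator d) := ⟨_, rfl⟩
  obtain ⟨B, hB⟩ : ∃ B : ℝ, B = av (Gᶜ.indicator ρ) := ⟨_, rfl⟩
  obtain ⟨Q, hQ⟩ : ∃ Q : ℝ, Q = av (G.indicator Hb) := ⟨_, rfl⟩
  have bmin : BM (fun θ => min (h θ ^ 2) 1) := BM_min (bh.pow 2) (BM_const 1)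
  have hD0 : 0 ≤ D := by rw [hD]; exact av_ind_nonneg fun θ _ => (hM.d0 θ).1
  have hB0 : 0 ≤ B := by
    rw [hB]
    refine av_ind_nonneg fun θ _ => ?_
    exact (hM.d0 θ).1.trans (hM.d0 θ).2
  -- (1) the main part
  have h1 : n1 ea ≤ 75 / 10000 * Y + 6 * Q := by
    refine (hL4 N ea (by omega) bea).2.1.trans ?_
    have e1 : 75 / 10000 * Y + 6 * Q =
        av (G.indicator fun θ => 75 / 10000 * min (h θ ^ 2) 1 + 6 * Hb θ) := by
      rw [hY, hQ, ← av_const_mul, ← av_const_mul,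
        ← av_add ((BM_ind bmin mG).const_mul _) ((BM_ind hM.bHb mG).const_mul _)]
      congr 1
      funext θ
      by_cases hθ : θ ∈ G
      · rw [indicator_of_mem hθ, indicator_of_mem hθ, indicator_of_mem hθ]
      · rw [indicator_of_notMem hθ, indicator_of_notMem hθ, indicator_of_notMem hθ]
        ring
    rw [e1]
    refine av_mono (bea.pow 2) (BM_ind ((bmin.const_mul _).add (hM.bHb.const_mul _)) mG)
      fun θ => ?_
    by_cases hθ : θ ∈ S
    · have hθ' : θ ∈ G ∧ |h θ| ≤ 1 / 100 := by rw [hS] at hθ; exact hθ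
      rw [hea, indicator_of_mem hθ, indicator_of_mem hθ'.1, ← sq_abs (max _ _)]
      have e2 : |max (-b θ) (min (f θ) (b θ))| ^ 2 ≤ b θ ^ 2 :=
        pow_le_pow_left₀ (abs_nonneg _) (clip_abs (hb0 θ)) 2
      refine e2.trans ?_
      rw [hb]
      have e3 := b_sq hθ'.2 hKN0 hKN (hHb0 θ)
      have e4 : min (h θ ^ 2) 1 = h θ ^ 2 := by
        refine min_eq_left ?_
        rw [← sq_abs]
        have := abs_nonneg (h θ)
        nlinarith [hθ'.2]
      rw [e4]
      exact e3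
    · rw [hea, indicator_of_notMem hθ]
      have e5 : 0 ≤ G.indicator (fun θ => 75 / 10000 * min (h θ ^ 2) 1 + 6 * Hb θ) θ := by
        refine indicator_nonneg (fun θ' _ => ?_) θ
        have := hHb0 θ'
        have : 0 ≤ min (h θ' ^ 2) 1 := le_min (sq_nonneg _) zero_le_one
        positivity
      simpa using e5
  -- (2) the small part
  obtain ⟨S', hS'⟩ : ∃ S' : Set (Sp N), S' = G ∩ {θ | 1 / 100 < |h θ|} := ⟨_, rfl⟩
  have mS' : MeasurableSet S' := by
    rw [hS']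
    exact mG.inter (measurableSet_lt measurable_const bh.abs.1)
  obtain ⟨μ, hμ⟩ : ∃ μ : ℝ, μ = av (S'.indicator fun _ => (1 : ℝ)) := ⟨_, rfl⟩
  have bμ : BM (S'.indicator fun _ : Sp N => (1 : ℝ)) := BM_ind (BM_const 1) mS'
  obtain ⟨W, hW⟩ : ∃ W : Sp N → ℝ, W = fun θ => G.indicator d θ + S'.indicator (fun _ => (1 : ℝ)) θ +
      Gᶜ.indicator ρ θ := ⟨_, rfl⟩
  have bD := BM_ind hM.bd mG
  have bB := BM_ind hM.bρ mG.compl
  have bW : BM W := by rw [hW]; exact (bD.add bμ).add bB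
  have hWav : av W = D + μ + B := by
    rw [hW, av_add (bD.add bμ) bB, av_add bD bμ, hD, hμ, hB]
  have hpt : ∀ θ, |Er θ| ^ (4 / 3 : ℝ) ≤ A * W θ := by
    intro θ
    have hd0 := (hM.d0 θ).1
    have hdρ := (hM.d0 θ).2
    refine (rp43 (abs_nonneg _)).trans ?_
    have hkb : |x θ| ≤ 10 * Real.sqrt (max (ρ θ) 1) := by
      rw [hx]
      exact hM.kb θ
    by_cases hθG : θ ∈ G
    · have hρK := (hGm θ).1 hθG
      by_cases hsm : |h θ| ≤ 1 / 100
      · have hθS : θ ∈ S := by rw [hS]; exact ⟨hθG, hsm⟩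
        have hθS' : θ ∉ S' := by
          rw [hS']
          intro h2
          have := h2.2
          simp only [Set.mem_ofPred_eq] at this
          linarith
        have e1 : |Er θ| ≤ 2 * d θ := by
          rw [hEr, hea]
          show |f θ - S.indicator (fun θ => max (-b θ) (min (f θ) (b θ))) θ| ≤ 2 * d θ
          rw [indicator_of_mem hθS]
          refine clip_sub (hb0 θ) ?_ (by linarith)
          rw [hf, hb, hx]
          show |G.indicator (fun θ => phi (h θ)) θ - (k θ - k₀ - kf θ)| ≤ _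
          rw [indicator_of_mem hθG, phi_of_le (by linarith [neg_abs_le (h θ)]), abs_sub_comm]
          refine (hka θ (by linarith)).trans (le_of_eq ?_)
          ring
        have e2 : W θ = d θ := by
          rw [hW]
          show G.indicator d θ + S'.indicator (fun _ => (1 : ℝ)) θ + Gᶜ.indicator ρ θ = d θ
          rw [indicator_of_mem hθG, indicator_of_notMem hθS', indicator_of_notMem (Set.notMem_compl_iff.2 hθG)]
          ring
        rw [e2]
        have e3 : |Er θ| ^ 2 ≤ (2 * d θ) ^ 2 := pow_le_pow_left₀ (abs_nonneg _) e1 2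
        have e4 : (2 * d θ) ^ 2 ≤ 4 * Real.exp K * d θ := by nlinarith
        have e5 : (2 + 4 * Real.exp K) * d θ ≤ A * d θ := by
          refine mul_le_mul_of_nonneg_right ?_ hd0
          rw [hA]
          nlinarith [sq_nonneg cK]
        linarith
      · have hθS : θ ∉ S := by
          rw [hS]
          intro h2
          exact hsm h2.2
        have hθS' : θ ∈ S' := by rw [hS']; exact ⟨hθG, not_le.1 hsm⟩
        have e1 : |Er θ| ≤ cK := by
          rw [hEr, hea]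
          show |f θ - S.indicator (fun θ => max (-b θ) (min (f θ) (b θ))) θ| ≤ cK
          rw [indicator_of_notMem hθS, sub_zero, hf]
          show |G.indicator (fun θ => phi (h θ)) θ - x θ| ≤ cK
          rw [indicator_of_mem hθG]
          have e2 := exp_bound_G hK1 hd0 (hM.H1 θ) (hexp θ) hρK
          have e3 : Real.sqrt (max (ρ θ) 1) ≤ Real.exp K := by
            rw [Real.sqrt_le_left (by linarith)]
            refine max_le ?_ ?_
            · nlinarith
            · nlinarith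
          have e4 := abs_sub (phi (h θ)) (x θ)
          rw [hcK]
          linarith
        have e2 : 1 ≤ W θ := by
          rw [hW]
          show 1 ≤ G.indicator d θ + S'.indicator (fun _ => (1 : ℝ)) θ + Gᶜ.indicator ρ θ
          rw [indicator_of_mem hθG, indicator_of_mem hθS', indicator_of_notMem (Set.notMem_compl_iff.2 hθG)]
          linarith
        have e3 : |Er θ| ^ 2 ≤ cK ^ 2 := pow_le_pow_left₀ (abs_nonneg _) e1 2
        have e4 : A * 1 ≤ A * W θ := mul_le_mul_of_nonneg_left e2 (by linarith)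
        have e5 : cK + cK ^ 2 ≤ A := by rw [hA]; linarith
        linarith
    · have hθS : θ ∉ S := by
        rw [hS]
        intro h2
        exact hθG h2.1
      have hρK : Real.exp K < ρ θ := not_le.1 fun h' => hθG ((hGm θ).2 h')
      have hρ1 : 1 ≤ ρ θ := by linarith
      have e1 : |Er θ| ≤ 10 * Real.sqrt (ρ θ) := by
        rw [hEr, hea]
        show |f θ - S.indicator (fun θ => max (-b θ) (min (f θ) (b θ))) θ| ≤ _
        rw [indicator_of_notMem hθS, sub_zero, hf]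
        show |G.indicator (fun θ => phi (h θ)) θ - x θ| ≤ _
        rw [indicator_of_notMem hθG, zero_sub, abs_neg]
        rwa [max_eq_left hρ1] at hkb
      have hsq := Real.sq_sqrt (by linarith : 0 ≤ ρ θ)
      have hs0 := Real.sqrt_nonneg (ρ θ)
      have e2 : Real.sqrt (ρ θ) ≤ ρ θ := by
        rw [Real.sqrt_le_left (by linarith)]
        nlinarith
      have e3 : ρ θ ≤ W θ := by
        rw [hW]
        show ρ θ ≤ G.indicator d θ + S'.indicator (fun _ => (1 : ℝ)) θ + Gᶜ.indicator ρ θ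
        have hc : θ ∈ Gᶜ := hθG
        rw [indicator_of_notMem hθG, indicator_of_mem hc]
        have : 0 ≤ S'.indicator (fun _ => (1 : ℝ)) θ := indicator_nonneg (fun _ _ => zero_le_one) θ
        linarith
      have e4 : |Er θ| ^ 2 ≤ (10 * Real.sqrt (ρ θ)) ^ 2 := pow_le_pow_left₀ (abs_nonneg _) e1 2
      have e5 : (10 * Real.sqrt (ρ θ)) ^ 2 = 100 * ρ θ := by rw [mul_pow, hsq]; norm_num
      have e6 : 110 * ρ θ ≤ A * W θ := mul_le_mul hA1 e3 (by linarith) (by linarith)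
      linarith
  have bEr43 : BM (fun θ => |Er θ| ^ (4 / 3 : ℝ)) :=
    bEr.abs.comp (Real.continuous_rpow_const (by norm_num))
  have hav43 : av (fun θ => |Er θ| ^ (4 / 3 : ℝ)) ≤ A * (D + μ + B) := by
    rw [← hWav, ← av_const_mul]
    exact av_mono bEr43 (bW.const_mul A) hpt
  have hμY : μ ≤ 10 ^ 4 * Y := by
    rw [hμ, hY, ← av_const_mul]
    refine av_mono bμ ((BM_ind bmin mG).const_mul _) fun θ => ?_
    by_cases hθ : θ ∈ S'
    · have hθ' : θ ∈ G ∧ 1 / 100 < |h θ| := by rw [hS'] at hθ; exact hθ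
      rw [indicator_of_mem hθ, indicator_of_mem hθ'.1]
      have e1 : (1 : ℝ) / 10 ^ 4 ≤ min (h θ ^ 2) 1 := by
        refine le_min ?_ (by norm_num)
        rw [← sq_abs]
        nlinarith [hθ'.2]
      linarith
    · rw [indicator_of_notMem hθ]
      have : 0 ≤ G.indicator (fun θ => min (h θ ^ 2) 1) θ :=
        indicator_nonneg (fun θ' _ => le_min (sq_nonneg _) zero_le_one) θ
      positivity
  have hμ2 : μ ≤ 200 * (D + κ + κ) := by
    have bs : BM (fun θ => |ρ θ - 1|) := (hM.bρ.sub (BM_const 1)).abs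
    have e1 : av (fun θ => 200 * (G.indicator d θ + |ρ θ - 1| + H θ)) =
        200 * (D + av (fun θ => |ρ θ - 1|) + av H) := by
      rw [av_const_mul, av_add (bD.add bs) hM.bH, av_add bD bs, hD]
    have e2 : μ ≤ av (fun θ => 200 * (G.indicator d θ + |ρ θ - 1| + H θ)) := by
      rw [hμ]
      refine av_mono bμ (((bD.add bs).add hM.bH).const_mul 200) fun θ => ?_
      by_cases hθ : θ ∈ S'
      · have hθ' : θ ∈ G ∧ 1 / 100 < |h θ| := by rw [hS'] at hθ; exact hθ
        rw [indicator_of_mem hθ, indicator_of_mem hθ'.1]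
        exact far_one (hM.d0 θ).1 (hM.H0 θ).1 (hexp θ) hθ'.2
      · rw [indicator_of_notMem hθ]
        have e3 : 0 ≤ G.indicator d θ := indicator_nonneg (fun θ' _ => (hM.d0 θ').1) θ
        have e4 := (hM.H0 θ).1
        have e5 := abs_nonneg (ρ θ - 1)
        positivity
    rw [e1] at e2
    have e3 := hM.cl
    have e4 := hM.clH
    linarith
  have hμ0 : 0 ≤ μ := by
    rw [hμ]
    exact av_ind_nonneg fun _ _ => zero_le_one
  have hDB : D + B ≤ κ := by rw [hD, hB]; exact hz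
  have hWle : A * (D + μ + B) ≤ δ ^ 2 := by
    rw [← hκA]
    refine mul_le_mul_of_nonneg_left ?_ (by linarith)
    linarith
  have hX0 : 0 ≤ av (fun θ => |Er θ| ^ (4 / 3 : ℝ)) :=
    av_nonneg fun θ => Real.rpow_nonneg (abs_nonneg _) _
  have h2 : n1 Er ≤ 2 * (1 / 10 ^ 6 * (D + μ + B)) := by
    refine (hL4 N Er (by omega) bEr).1.trans ?_
    refine mul_le_mul_of_nonneg_left ?_ (by norm_num)
    refine (Real.rpow_le_rpow hX0 hav43 (by norm_num)).trans ?_
    refine (rp32 (by positivity) hδ0.le hWle).trans (le_of_eq ?_)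
    rw [← mul_assoc, hδA]
  -- (3) far moments
  have h3 : n1 (fun θ => -kf θ) ≤ 1 / 4 * far := by
    refine (hL4 N _ (by omega) hM.bkf.neg).2.2.trans ?_
    have e1 : (fun θ => |-kf θ|) = kf := by
      funext θ
      rw [abs_neg, abs_of_nonneg (hM.kf0 θ)]
    rw [e1]
    have e2 : 0 ≤ av kf := av_nonneg hM.kf0
    have e3 : av kf ^ 2 ≤ (Real.exp (-Real.sqrt N) * far) ^ 2 := pow_le_pow_left₀ e2 hM.kf1 2
    have e4 := n_exp N
    have e5 : far ^ 2 ≤ far := by nlinarith [hM.far0, hM.far1]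
    calc (N : ℝ) * av kf ^ 2 ≤ N * (Real.exp (-Real.sqrt N) * far) ^ 2 :=
          mul_le_mul_of_nonneg_left e3 hN0.le
      _ = N * Real.exp (-Real.sqrt N) ^ 2 * far ^ 2 := by ring
      _ ≤ 1 / 4 * far ^ 2 := mul_le_mul_of_nonneg_right e4 (sq_nonneg _)
      _ ≤ 1 / 4 * far := by linarith
  -- sum
  have h4 : (G.indicator fun θ => phi (h θ)) =
      fun θ => (ea θ + (Er θ + -kf θ)) + (k θ - k₀) := by
    funext θ
    rw [hEr, hf, hx]
    show _ = (ea θ + (G.indicator (fun θ => phi (h θ)) θ - (k θ - k₀ - kf θ) - ea θ + -kf θ)) +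
      (k θ - k₀)
    ring
  rw [h4, n1_center hMO (by omega) k₀ (bea.add (bEr.add hM.bkf.neg)) hM.bk hM.cen]
  have h5 := n1_add' bea (bEr.add hM.bkf.neg)
  have h6 := n1_add' bEr hM.bkf.neg
  rw [← hY, ← hD, ← hB, ← hQ]
  linarith [hM.far0]

end Pool.Agent.H21.LNN
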